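import Pool.Agent.W544.PG.Defs

open Matrix Finset Module

namespace Pool.Agent.W82.PG

open Pool.Agent.W544.PG

noncomputable section

lemma w0 {p q : ℕ} (G : Gr p q) (hq : 0 < q) (hA : G.IrrA) (hK : G.KerB) :
    ∀ w : Fin p → ℂ, (∀ F ∈ G.h1, Fᴴ *ᵥ w = 0) → w = 0 := by
  let W : Submodule ℂ (Fin p → ℂ) :=
    { carrier := {w | ∀ F ∈ G.h1, Fᴴ *ᵥ w = 0}
      zero_mem' := by intro F _; simp
      add_mem' := by
        intro a b ha hb F hF
        rw [Matrix.mulVec_add, ha F hF, hb F hF, add_zero]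
      smul_mem' := by
        intro c a ha F hF
        rw [Matrix.mulVec_smul, ha F hF, smul_zero] }
  have hst : ∀ X ∈ G.h0, ∀ w ∈ W, X.1 *ᵥ w ∈ W := by
    intro X hX w hw F hF
    have h1 := G.b01 _ (G.star0 X hX) F hF
    have h2 := hw _ h1
    have h3 : Fᴴ *ᵥ w = 0 := hw F hF
    have h4 : (X.1ᴴ * F - F * X.2ᴴ)ᴴ = Fᴴ * X.1 - X.2 * Fᴴ := by
      rw [Matrix.conjTranspose_sub, Matrix.conjTranspose_mul, Matrix.conjTranspose_mul,
        Matrix.conjTranspose_conjTranspose, Matrix.conjTranspose_conjTranspose]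
    have h5 : (X.1ᴴ * F - F * X.2ᴴ)ᴴ *ᵥ w = 0 := h2
    rw [h4, Matrix.sub_mulVec, ← Matrix.mulVec_mulVec, ← Matrix.mulVec_mulVec, h3,
      Matrix.mulVec_zero, sub_zero] at h5
    exact h5
  rcases hA W hst with h | h
  · intro w hw
    have : w ∈ W := hw
    rw [h] at this
    simpa using this
  · exfalso
    have hF0 : ∀ F ∈ G.h1, F = 0 := by
      intro F hF
      have : Fᴴ = 0 := by
        apply Matrix.ext_of_mulVec_single
        intro i
        have hi : (Pi.single i 1 : Fin p → ℂ) ∈ W := by rw [h]; trivial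
        have := hi F hF
        rw [this, Matrix.zero_mulVec]
      simpa using congrArg Matrix.conjTranspose this
    have := hK (fun _ => 1) (by
      intro F hF
      rw [hF0 F hF, Matrix.zero_mulVec])
    have h2 := congrFun this ⟨0, hq⟩
    simp at h2

lemma w0t {p q : ℕ} (G : Gr p q) (hq : 0 < q) (hA : G.IrrA) (hK : G.KerB)
    (w : Fin p → ℂ) (hw : ∀ F ∈ G.h1, Fᵀ *ᵥ w = 0) : w = 0 := by
  have := w0 G hq hA hK (star w) (by
    intro F hF
    have h : Fᴴ *ᵥ star w = star (Fᵀ *ᵥ w) := by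
      ext i
      simp [Matrix.mulVec, dotProduct]
    rw [h, hw F hF, star_zero])
  simpa using congrArg star this

lemma kt {p q : ℕ} (G : Gr p q) (hK : G.KerB)
    (u : Fin q → ℂ) (hu : ∀ F ∈ G.h1, (F.map star) *ᵥ u = 0) : u = 0 := by
  have := hK (star u) (by
    intro F hF
    have h := congrArg star (hu F hF)
    rw [← star_zero, ← h]
    ext i
    simp [Matrix.mulVec, dotProduct])
  simpa using congrArg star this

theorem com1 : S_com1 := by
  intro p q G hp hq hA hK s hs
  have hE : ∀ F ∈ G.h1, s * big1 F = big1 F * s := fun F hF => hs _ ⟨F, hF, Or.inl rfl⟩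
  have hEH : ∀ F ∈ G.h1, s * (big1 F)ᴴ = (big1 F)ᴴ * s :=
    fun F hF => hs _ ⟨F, hF, Or.inr rfl⟩
  have a01 : ∀ k j, s (Sum.inr (Sum.inl k)) (Sum.inl j) = 0 := by
    intro k j
    refine congrFun (hK (fun k => s (Sum.inr (Sum.inl k)) (Sum.inl j)) ?_) k
    intro F hF; ext i
    have h := congrFun (congrFun (hE F hF) (Sum.inl i)) (Sum.inl j)
    simpa [Matrix.mul_apply, Fintype.sum_sum_type, big1, Matrix.mulVec, dotProduct] using h.symm
  have am0 : ∀ k j, s (Sum.inr (Sum.inr k)) (Sum.inr (Sum.inl j)) = 0 := by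
    intro k j
    refine congrFun (hK (fun j => s (Sum.inr (Sum.inr k)) (Sum.inr (Sum.inl j))) ?_) j
    intro F hF; ext i
    have h := congrFun (congrFun (hE F hF) (Sum.inr (Sum.inr k))) (Sum.inr (Sum.inr i))
    simpa [Matrix.mul_apply, Fintype.sum_sum_type, big1, Matrix.mulVec, dotProduct, mul_comm] using h
  have a1m : ∀ k j, s (Sum.inl k) (Sum.inr (Sum.inr j)) = 0 := by
    intro k j
    refine congrFun (w0 G hq hA hK (fun k => s (Sum.inl k) (Sum.inr (Sum.inr j))) ?_) k
    intro F hF; ext i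
    have h := congrFun (congrFun (hEH F hF) (Sum.inr (Sum.inl i))) (Sum.inr (Sum.inr j))
    simpa [Matrix.mul_apply, Fintype.sum_sum_type, big1, Matrix.mulVec, dotProduct, mul_comm] using h.symm
  have am1 : ∀ k j, s (Sum.inr (Sum.inr k)) (Sum.inl j) = 0 := by
    intro k j
    refine congrFun (w0t G hq hA hK (fun k => s (Sum.inr (Sum.inr k)) (Sum.inl j)) ?_) k
    intro F hF; ext i
    have h := congrFun (congrFun (hE F hF) (Sum.inr (Sum.inl i))) (Sum.inl j)
    simpa [Matrix.mul_apply, Fintype.sum_sum_type, big1, Matrix.mulVec, dotProduct, mul_comm] using h.symm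
  have a10 : ∀ k j, s (Sum.inl k) (Sum.inr (Sum.inl j)) = 0 := by
    intro k j
    refine congrFun (kt G hK (fun j => s (Sum.inl k) (Sum.inr (Sum.inl j))) ?_) j
    intro F hF; ext i
    have h := congrFun (congrFun (hEH F hF) (Sum.inl k)) (Sum.inl i)
    simpa [Matrix.mul_apply, Fintype.sum_sum_type, big1, Matrix.mulVec, dotProduct, mul_comm] using h
  have a0m : ∀ k j, s (Sum.inr (Sum.inl k)) (Sum.inr (Sum.inr j)) = 0 := by
    intro k j
    refine congrFun (kt G hK (fun k => s (Sum.inr (Sum.inl k)) (Sum.inr (Sum.inr j))) ?_) k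
    intro F hF; ext i
    have h := congrFun (congrFun (hEH F hF) (Sum.inr (Sum.inr i))) (Sum.inr (Sum.inr j))
    simpa [Matrix.mul_apply, Fintype.sum_sum_type, big1, Matrix.mulVec, dotProduct, mul_comm] using h.symm
  ext i j
  rcases i with i | i | i <;> rcases j with j | j | j <;>
    simp [Matrix.mul_apply, Fintype.sum_sum_type, x0, big0, Matrix.one_apply, a01, am0, a1m, am1,
      a10, a0m, Finset.sum_ite_eq]

end

end Pool.Agent.W82.PG
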